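import Pool.Agent.TH434.ESFMain

/-!
# Insertions create squares
-/

set_option autoImplicit false

namespace Pool.Agent.TH434.ESF

/-- the sequence `u` with `x` inserted after the first `p` entries -/
def ins {α : Type*} (u : ℕ → α) (p : ℕ) (x : α) (i : ℕ) : α :=
  if i < p then u i else if i = p then x else u (i - 1)

/-- pattern of the left end with an element of rank `r` inserted after the first `p` entries -/
def pat (p r : ℕ) : List ℕ :=
  (P.take p).map (fun n => 2 * n + 1) ++ (2 * r) :: (P.drop p).map (fun n => 2 * n + 1)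

lemma pat_getD : ∀ p < 3, ∀ r < 17, ∀ i < 17,
    (pat p r).getD i 0 = if i < p then 2 * P.getD i 0 + 1 else if i = p then 2 * r else
      2 * P.getD (i - 1) 0 + 1 := by
  decide +kernel

lemma pat_sq : ∀ p < 3, ∀ r < 17, ∃ i < 3, ∃ l < 9, 2 ≤ l ∧ i + 2 * l ≤ 17 ∧
    sqB (pat p r) i l = true := by
  decide +kernel

/-- the rank of `x` in an increasing sequence -/
lemma exists_rank (y : ℕ → ℚ) (hy : ∀ i j, i < j → y i < y j) (x : ℚ) (m : ℕ) :
    ∃ r ≤ m, ∀ j < m, (y j < x ↔ j < r) := by
  induction m with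
  | zero => exact ⟨0, le_refl _, fun j hj => absurd hj (by omega)⟩
  | succ m ih =>
    by_cases hm : y m < x
    · refine ⟨m + 1, le_refl _, fun j hj => ?_⟩
      refine iff_of_true ?_ hj
      rcases Nat.lt_succ_iff_lt_or_eq.1 hj with e | e
      · exact lt_trans (hy j m e) hm
      · rw [e]; exact hm
    · obtain ⟨r, hr, h⟩ := ih
      refine ⟨r, by omega, fun j hj => ?_⟩
      rcases Nat.lt_succ_iff_lt_or_eq.1 hj with e | e
      · exact h j e
      · rw [e]
        exact iff_of_false hm (by omega)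

/-- the sequence over the rationals -/
def gq (k i : ℕ) : ℚ := (g k i : ℚ)

lemma gq_lt (k i j : ℕ) : gq k i < gq k j ↔ g k i < g k j := by
  unfold gq; exact Int.cast_lt

/-- insertion near the left end creates a square -/
lemma ins_left (k p : ℕ) (hp : p < 3) (x : ℚ) (hx : ∀ i < len k, gq k i ≠ x) :
    ∃ i l, 2 ≤ l ∧ i + 2 * l ≤ len k + 1 ∧ Sq (ins (gq k) p x) i l := by
  have h1 := Nat.one_le_two_pow (n := k)
  obtain ⟨r, hr, hrank⟩ := exists_rank (fun j => (h k j : ℚ))
    (fun i j hij => by exact_mod_cast h_mono k i j hij) x 16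
  obtain ⟨i, hi, l, hl, h2, hil, hs⟩ := pat_sq p hp r (by omega)
  refine ⟨i, l, h2, by unfold len; omega, ?_⟩
  rw [sqB_iff] at hs
  have hlx : ∀ i < 16, (gq k i < x ↔ 2 * P.getD i 0 + 1 < 2 * r) := by
    intro i hi
    have := hrank (P.getD i 0) (P_lt i)
    unfold gq
    rw [g_left k i hi, this]
    omega
  have hxl : ∀ i < 16, (x < gq k i ↔ 2 * r < 2 * P.getD i 0 + 1) := by
    intro i hi
    have e1 := hlx i hi
    have e2 := hx i (by unfold len; omega)
    constructor
    · intro hlt
      have : ¬ (gq k i < x) := not_lt.2 hlt.le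
      rw [e1] at this
      omega
    · intro hlt
      have : ¬ (gq k i < x) := by rw [e1]; omega
      exact lt_of_le_of_ne (not_lt.1 this) e2.symm
  have hll : ∀ i < 16, ∀ j < 16, (gq k i < gq k j ↔ 2 * P.getD i 0 + 1 < 2 * P.getD j 0 + 1) := by
    intro i hi j hj
    rw [gq_lt, g_left k i hi, g_left k j hj, h_lt_iff]
    omega
  have key : ∀ i < 17, ∀ j < 17, (ins (gq k) p x i < ins (gq k) p x j ↔
      (pat p r).getD i 0 < (pat p r).getD j 0) := by
    intro i hi j hj
    rw [pat_getD p hp r (by omega) i hi, pat_getD p hp r (by omega) j hj]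
    unfold ins
    split_ifs with a1 a2 a3 a4 a5 a6 a7 a8
    · exact hll i (by omega) j (by omega)
    · exact hlx i (by omega)
    · exact hll i (by omega) (j - 1) (by omega)
    · exact hxl j (by omega)
    · simp
    · exact hxl (j - 1) (by omega)
    · exact hll (i - 1) (by omega) j (by omega)
    · exact hlx (i - 1) (by omega)
    · exact hll (i - 1) (by omega) (j - 1) (by omega)
  intro a ha b hb
  rw [key _ (by omega) _ (by omega), key _ (by omega) _ (by omega)]
  exact hs a ha b hb

/-- insertion near the right end creates a square -/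
lemma ins_right (k p : ℕ) (hp : len k < p + 3) (hp2 : p ≤ len k) (x : ℚ)
    (hx : ∀ i < len k, gq k i ≠ x) :
    ∃ i l, 2 ≤ l ∧ i + 2 * l ≤ len k + 1 ∧ Sq (ins (gq k) p x) i l := by
  obtain ⟨i, l, h2, hil, hs⟩ := ins_left k (len k - p) (by omega) (-x) (by
    intro i hi e
    refine hx (len k - 1 - i) (by omega) ?_
    have := g_anti k (len k - 1 - i) i (by unfold len at hi ⊢; omega)
    unfold gq at e ⊢
    rw [this]
    push_cast
    linarith)
  have key : ∀ j ≤ len k, ins (gq k) p x j = - ins (gq k) (len k - p) (-x) (len k - j) := by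
    intro j hj
    unfold ins
    rcases Nat.lt_trichotomy j p with e | e | e
    · rw [if_pos e, if_neg (by omega), if_neg (by omega)]
      have := g_anti k j (len k - j - 1) (by unfold len at hj hp2 ⊢; omega)
      unfold gq
      rw [this]
      push_cast
      rfl
    · rw [if_neg (by omega), if_pos e, if_neg (by omega), if_pos (by omega), neg_neg]
    · rw [if_neg (by omega), if_neg (by omega), if_pos (by omega)]
      have := g_anti k (j - 1) (len k - j) (by unfold len at hj hp2 ⊢; omega)
      unfold gq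
      rw [this]
      push_cast
      rfl
  refine ⟨len k + 1 - i - 2 * l, l, h2, by omega, ?_⟩
  intro a ha b hb
  rw [key _ (by omega), key _ (by omega), key _ (by omega), key _ (by omega), neg_lt_neg_iff,
    neg_lt_neg_iff]
  have := hs (l - 1 - b) (by omega) (l - 1 - a) (by omega)
  rw [show len k - (len k + 1 - i - 2 * l + b) = i + l + (l - 1 - b) by omega,
    show len k - (len k + 1 - i - 2 * l + a) = i + l + (l - 1 - a) by omega,
    show len k - (len k + 1 - i - 2 * l + l + b) = i + (l - 1 - b) by omega,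
    show len k - (len k + 1 - i - 2 * l + l + a) = i + (l - 1 - a) by omega]
  exact this.symm

/-- a square of half-length two from one comparison -/
lemma sq_two (v : ℕ → ℚ) (s : ℕ) (h01 : v s ≠ v (s + 1)) (h23 : v (s + 2) ≠ v (s + 3))
    (hh : v s < v (s + 1) ↔ v (s + 2) < v (s + 3)) : Sq v s 2 := by
  intro a ha b hb
  have ha' : a = 0 ∨ a = 1 := by omega
  have hb' : b = 0 ∨ b = 1 := by omega
  rcases ha' with rfl | rfl <;> rcases hb' with rfl | rfl
  · simp
  · exact hh
  · show v (s + 1) < v s ↔ v (s + 3) < v (s + 2)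
    constructor
    · intro hlt
      have : ¬ v (s + 2) < v (s + 3) := fun hc => lt_asymm hlt (hh.2 hc)
      exact lt_of_le_of_ne (not_lt.1 this) h23.symm
    · intro hlt
      have : ¬ v s < v (s + 1) := fun hc => lt_asymm hlt (hh.1 hc)
      exact lt_of_le_of_ne (not_lt.1 this) h01.symm
  · simp

/-- insertion in the middle creates a square -/
lemma ins_mid (k p : ℕ) (hp : 3 ≤ p) (hp2 : p + 3 ≤ len k) (x : ℚ)
    (hx : ∀ i < len k, gq k i ≠ x) :
    ∃ i l, 2 ≤ l ∧ i + 2 * l ≤ len k + 1 ∧ Sq (ins (gq k) p x) i l := by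
  have hne : ∀ i j, i < len k → j < len k → i ≠ j → gq k i ≠ gq k j := by
    intro i j hi hj hij e
    unfold gq at e
    exact hij (g_inj k i j hi hj (by exact_mod_cast e))
  have ud : ∀ i, i + 1 < len k → (gq k i < gq k (i + 1) ↔ i % 4 = 0 ∨ i % 4 = 3) := by
    intro i hi
    rw [gq_lt]
    exact g_updown k i hi
  obtain ⟨q, rfl⟩ : ∃ q, p = q + 3 := ⟨p - 3, by omega⟩
  have v0 : ins (gq k) (q + 3) x q = gq k q := by unfold ins; rw [if_pos (by omega)]
  have v1 : ins (gq k) (q + 3) x (q + 1) = gq k (q + 1) := by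
    unfold ins; rw [if_pos (by omega)]
  have v2 : ins (gq k) (q + 3) x (q + 2) = gq k (q + 2) := by
    unfold ins; rw [if_pos (by omega)]
  have v3 : ins (gq k) (q + 3) x (q + 3) = x := by
    unfold ins; rw [if_neg (by omega), if_pos rfl]
  have v4 : ins (gq k) (q + 3) x (q + 4) = gq k (q + 3) := by
    unfold ins; rw [if_neg (by omega), if_neg (by omega)]; rfl
  have v5 : ins (gq k) (q + 3) x (q + 5) = gq k (q + 4) := by
    unfold ins; rw [if_neg (by omega), if_neg (by omega)]; rfl
  have v6 : ins (gq k) (q + 3) x (q + 6) = gq k (q + 5) := by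
    unfold ins; rw [if_neg (by omega), if_neg (by omega)]; rfl
  have A := ud q (by omega)
  have B := ud (q + 1) (by omega)
  have C := ud (q + 3) (by omega)
  have D := ud (q + 4) (by omega)
  have n0 := hne q (q + 1) (by omega) (by omega) (by omega)
  have n1 := hne (q + 1) (q + 2) (by omega) (by omega) (by omega)
  have n3 := hne (q + 3) (q + 4) (by omega) (by omega) (by omega)
  have n4 := hne (q + 4) (q + 5) (by omega) (by omega) (by omega)
  have x2 := hx (q + 2) (by omega)
  have x3 := hx (q + 3) (by omega)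
  by_cases c1 : (gq k q < gq k (q + 1) ↔ gq k (q + 2) < x)
  · refine ⟨q, 2, le_refl _, by omega, sq_two _ q ?_ ?_ ?_⟩
    · rw [v0, v1]; exact n0
    · rw [v2, v3]; exact x2
    · rw [v0, v1, v2, v3]; exact c1
  by_cases c2 : (gq k (q + 1) < gq k (q + 2) ↔ x < gq k (q + 3))
  · refine ⟨q + 1, 2, le_refl _, by omega, sq_two _ (q + 1) ?_ ?_ ?_⟩
    · show ins (gq k) (q + 3) x (q + 1) ≠ ins (gq k) (q + 3) x (q + 2)
      rw [v1, v2]; exact n1
    · show ins (gq k) (q + 3) x (q + 3) ≠ ins (gq k) (q + 3) x (q + 4)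
      rw [v3, v4]; exact x3.symm
    · show ins (gq k) (q + 3) x (q + 1) < ins (gq k) (q + 3) x (q + 2) ↔
        ins (gq k) (q + 3) x (q + 3) < ins (gq k) (q + 3) x (q + 4)
      rw [v1, v2, v3, v4]; exact c2
  by_cases c3 : (gq k (q + 2) < x ↔ gq k (q + 3) < gq k (q + 4))
  · refine ⟨q + 2, 2, le_refl _, by omega, sq_two _ (q + 2) ?_ ?_ ?_⟩
    · show ins (gq k) (q + 3) x (q + 2) ≠ ins (gq k) (q + 3) x (q + 3)
      rw [v2, v3]; exact x2
    · show ins (gq k) (q + 3) x (q + 4) ≠ ins (gq k) (q + 3) x (q + 5)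
      rw [v4, v5]; exact n3
    · show ins (gq k) (q + 3) x (q + 2) < ins (gq k) (q + 3) x (q + 3) ↔
        ins (gq k) (q + 3) x (q + 4) < ins (gq k) (q + 3) x (q + 5)
      rw [v2, v3, v4, v5]; exact c3
  by_cases c4 : (x < gq k (q + 3) ↔ gq k (q + 4) < gq k (q + 5))
  · refine ⟨q + 3, 2, le_refl _, by omega, sq_two _ (q + 3) ?_ ?_ ?_⟩
    · show ins (gq k) (q + 3) x (q + 3) ≠ ins (gq k) (q + 3) x (q + 4)
      rw [v3, v4]; exact x3.symm
    · show ins (gq k) (q + 3) x (q + 5) ≠ ins (gq k) (q + 3) x (q + 6)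
      rw [v5, v6]; exact n4
    · show ins (gq k) (q + 3) x (q + 3) < ins (gq k) (q + 3) x (q + 4) ↔
        ins (gq k) (q + 3) x (q + 5) < ins (gq k) (q + 3) x (q + 6)
      rw [v3, v4, v5, v6]; exact c4
  · exfalso
    rw [A] at c1
    rw [B] at c2
    rw [C] at c3
    rw [D] at c4
    by_cases X1 : gq k (q + 2) < x <;> by_cases X2 : x < gq k (q + 3) <;>
      simp only [X1, X2, iff_true, iff_false, true_iff, false_iff] at c1 c2 c3 c4 <;> omega

/-- every insertion creates a square -/
theorem ins_all (k p : ℕ) (hp : p ≤ len k) (x : ℚ) (hx : ∀ i < len k, gq k i ≠ x) :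
    ∃ i l, 2 ≤ l ∧ i + 2 * l ≤ len k + 1 ∧ Sq (ins (gq k) p x) i l := by
  by_cases h1 : p < 3
  · exact ins_left k p h1 x hx
  · by_cases h2 : len k < p + 3
    · exact ins_right k p h2 hp x hx
    · exact ins_mid k p (by omega) (by omega) x hx

/-! ### as a list -/

/-- the permutation as a list of rationals -/
def W (k : ℕ) : List ℚ := (List.range (len k)).map (gq k)

lemma W_length (k : ℕ) : (W k).length = len k := by simp [W]

lemma W_getD (k i : ℕ) (hi : i < len k) : (W k).getD i 0 = gq k i := by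
  simp [W, List.getD_eq_getElem?_getD, hi]

lemma ins_getD (w : List ℚ) (p : ℕ) (hp : p ≤ w.length) (x : ℚ) (i : ℕ) :
    (w.take p ++ x :: w.drop p).getD i 0 = ins (fun n => w.getD n 0) p x i := by
  have hl : (w.take p).length = p := by simp [hp]
  unfold ins
  rcases Nat.lt_trichotomy i p with e | e | e
  · rw [if_pos e, List.getD_append _ _ _ _ (by rw [hl]; exact e)]
    simp only [List.getD_eq_getElem?_getD]
    rw [List.getElem?_take_of_lt e]
  · subst e
    rw [if_neg (lt_irrefl _), if_pos rfl, List.getD_append_right _ _ _ _ (by rw [hl])]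
    rw [hl]; simp
  · rw [if_neg (by omega), if_neg (by omega),
      List.getD_append_right _ _ _ _ (by rw [hl]; omega), hl]
    obtain ⟨q, rfl⟩ : ∃ q, i = p + 1 + q := ⟨i - p - 1, by omega⟩
    rw [show p + 1 + q - p = q + 1 by omega, List.getD_cons_succ]
    simp only [List.getD_eq_getElem?_getD, List.getElem?_drop]
    rw [show p + 1 + q - 1 = p + q by omega]

end Pool.Agent.TH434.ESF
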