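import Pool.Agent.TH434.ESFMid

/-!
# The glued sequence

`g k` is the sequence of length `128 * 2 ^ k + 21` which starts with sixteen special values,
continues with the positions `6, …, 2 ^ (k + 7) - 6` of `f (k + 7)`, and is antisymmetric.
-/

set_option autoImplicit false

namespace Pool.Agent.TH434.ESF

/-- the left end, as a permutation of `0, …, 15` -/
def P : List ℕ := [5, 12, 10, 0, 3, 9, 8, 4, 14, 15, 13, 1, 2, 11, 7, 6]

/-- the value of the element of rank `j` of the left end -/
def h (k j : ℕ) : ℤ := if j < 9 then (j : ℤ) + 1 - 384 * 2 ^ k else (j : ℤ) + 1 + 384 * 2 ^ k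

/-- the length -/
def len (k : ℕ) : ℕ := 128 * 2 ^ k + 21

/-- the glued sequence -/
def g (k i : ℕ) : ℤ :=
  if i < 16 then h k (P.getD i 0) else
    if i < 128 * 2 ^ k + 5 then f (k + 7) (i - 10) else - h k (P.getD (128 * 2 ^ k + 20 - i) 0)

lemma g_left (k i : ℕ) (hi : i < 16) : g k i = h k (P.getD i 0) := by
  rw [g, if_pos hi]

lemma g_mid (k i : ℕ) (h1 : 16 ≤ i) (h2 : i < 128 * 2 ^ k + 5) : g k i = f (k + 7) (i - 10) := by
  rw [g, if_neg (by omega), if_pos h2]

lemma g_right (k i : ℕ) (h1 : 128 * 2 ^ k + 5 ≤ i) :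
    g k i = - h k (P.getD (128 * 2 ^ k + 20 - i) 0) := by
  have := Nat.one_le_two_pow (n := k)
  rw [g, if_neg (by omega), if_neg (by omega)]

lemma P_lt (i : ℕ) : P.getD i 0 < 16 := by
  by_cases hi : i < 16
  · interval_cases i <;> decide
  · rw [List.getD_eq_default _ _ (by simpa [P] using hi)]; norm_num

lemma h_range (k j : ℕ) :
    (h k j = (j : ℤ) + 1 - 384 * 2 ^ k) ∨ (h k j = (j : ℤ) + 1 + 384 * 2 ^ k) := by
  unfold h; split_ifs <;> simp

lemma h_mono (k i j : ℕ) (hij : i < j) : h k i < h k j := by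
  have hpos : (0 : ℤ) < 2 ^ k := by positivity
  have : (i : ℤ) < j := by exact_mod_cast hij
  unfold h
  split_ifs with h1 h2 h2
  · linarith
  · linarith
  · omega
  · linarith

lemma h_lt_iff (k i j : ℕ) : h k i < h k j ↔ i < j := by
  constructor
  · intro hh
    by_contra hc
    rcases Nat.eq_or_lt_of_le (Nat.le_of_not_lt hc) with e | e
    · subst e; exact lt_irrefl _ hh
    · exact lt_asymm hh (h_mono k j i e)
  · exact h_mono k i j

/-- antisymmetry of `g` -/
lemma g_anti (k i j : ℕ) (hij : i + j = 128 * 2 ^ k + 20) : g k i = - g k j := by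
  have h1 := Nat.one_le_two_pow (n := k)
  by_cases hi : i < 16
  · rw [g_left k i hi, g_right k j (by omega), neg_neg]
    congr 2
    omega
  · by_cases hj : j < 16
    · rw [g_left k j hj, g_right k i (by omega)]
      congr 3
      omega
    · rw [g_mid k i (by omega) (by omega), g_mid k j (by omega) (by omega)]
      refine f_anti (k + 6) _ _ (by omega) (by omega) ?_
      have : 2 ^ (k + 6) = 64 * 2 ^ k := by rw [pow_add]; ring
      omega

lemma pow5 (k : ℕ) : (2 : ℤ) ^ (k + 5) = 32 * 2 ^ k := by rw [pow_add]; ring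

lemma pow5n (k : ℕ) : 2 ^ (k + 5) = 32 * 2 ^ k := by rw [pow_add]; ring

/-- the table of the first 38 values: `g k i = a * 2 ^ k + b` -/
def tab : List (ℤ × ℤ) :=
  [(-384, 6), (384, 13), (384, 11), (-384, 1), (-384, 4), (384, 10), (-384, 9), (-384, 5),
   (384, 15), (384, 16), (384, 14), (-384, 2), (-384, 3), (384, 12), (-384, 8), (-384, 7),
   (224, 3), (448, 7), (-72, 1), (-576, 9), (-288, 5), (448, 11), (112, 3), (-576, 13),
   (224, 7), (448, 15), (-36, 1), (-576, 17), (-288, 9), (448, 19), (-144, 5), (-576, 21),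
   (224, 11), (448, 23), (56, 3), (-576, 25), (-288, 13), (448, 27)]

/-- the ranks of the first 38 entries -/
def R : List ℕ :=
  [10, 28, 26, 5, 8, 25, 13, 9, 30, 31, 29, 6, 7, 27, 12, 11, 22, 32, 18, 0, 14, 33, 21, 1, 23, 34,
   19, 2, 15, 35, 17, 3, 24, 36, 20, 4, 16, 37]

lemma g_tab (k i : ℕ) (hi : i < 38) :
    g k i = (tab.getD i (0, 0)).1 * 2 ^ k + (tab.getD i (0, 0)).2 := by
  have h1 := Nat.one_le_two_pow (n := k)
  by_cases h16 : i < 16
  · rw [g_left k i h16]
    interval_cases i <;> simp [P, h, tab] <;> ring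
  · rw [g_mid k i (by omega) (by omega)]
    interval_cases i <;> simp [f, tab, pow_add] <;> ring

lemma lin_cmp (a b c d : ℤ) (r s : ℕ) (t : ℤ) (ht : 1 ≤ t)
    (hh : (a = c ∧ (b < d ↔ r < s)) ∨ (a < c ∧ b < d + (c - a) ∧ r < s) ∨
      (c < a ∧ d < b + (a - c) ∧ s ≤ r)) : (a * t + b < c * t + d ↔ r < s) := by
  rcases hh with ⟨h1, h2⟩ | ⟨h1, h2, h3⟩ | ⟨h1, h2, h3⟩
  · subst h1
    rw [← h2]
    constructor <;> intro h' <;> linarith
  · constructor
    · intro _; exact h3
    · intro _
      have : (c - a) * 1 ≤ (c - a) * t := mul_le_mul_of_nonneg_left ht (by linarith)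
      nlinarith
  · constructor
    · intro h'
      exfalso
      have : (a - c) * 1 ≤ (a - c) * t := mul_le_mul_of_nonneg_left ht (by linarith)
      nlinarith
    · intro h'; omega

lemma tab_cmp : ∀ i < 38, ∀ j < 38,
    let a := (tab.getD i (0, 0)).1
    let b := (tab.getD i (0, 0)).2
    let c := (tab.getD j (0, 0)).1
    let d := (tab.getD j (0, 0)).2
    let r := R.getD i 0
    let s := R.getD j 0
    (a = c ∧ (b < d ↔ r < s)) ∨ (a < c ∧ b < d + (c - a) ∧ r < s) ∨
      (c < a ∧ d < b + (a - c) ∧ s ≤ r) := by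
  decide +kernel

/-- the order of the first 38 entries does not depend on `k` -/
lemma g_cmp (k i j : ℕ) (hi : i < 38) (hj : j < 38) :
    g k i < g k j ↔ R.getD i 0 < R.getD j 0 := by
  rw [g_tab k i hi, g_tab k j hj]
  exact lin_cmp _ _ _ _ _ _ _ (by exact_mod_cast Nat.one_le_two_pow) (tab_cmp i hi j hj)

/-- Boolean square test on a list -/
def sqB (L : List ℕ) (i l : ℕ) : Bool :=
  (List.range l).all fun a => (List.range l).all fun b =>
    (decide (L.getD (i + a) 0 < L.getD (i + b) 0)) ==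
      (decide (L.getD (i + l + a) 0 < L.getD (i + l + b) 0))

lemma sqB_iff (L : List ℕ) (i l : ℕ) : sqB L i l = true ↔ Sq (fun n => L.getD n 0) i l := by
  simp [sqB, Sq, List.all_eq_true]

lemma left_check : ∀ i < 16, ∀ l < 20, 2 ≤ l → i + 2 * l ≤ 38 → sqB R i l = false := by
  decide +kernel

/-- no squares at the left end -/
lemma left_nosq (k i l : ℕ) (hi : i < 16) (hl : l < 20) (h2 : 2 ≤ l) (h38 : i + 2 * l ≤ 38) :
    ¬ Sq (g k) i l := by
  intro hs
  have : sqB R i l = true := by
    rw [sqB_iff]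
    intro a ha b hb
    have := hs a ha b hb
    rw [g_cmp k _ _ (by omega) (by omega), g_cmp k _ _ (by omega) (by omega)] at this
    exact this
  rw [left_check i hi l hl h2 h38] at this
  exact Bool.noConfusion this

end Pool.Agent.TH434.ESF
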