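import Pool.Agent.TH434.ESFGlue

/-!
# The glued sequence is square-free and extremal
-/

set_option autoImplicit false

namespace Pool.Agent.TH434.ESF

lemma R_updown : ∀ i < 37, (R.getD i 0 < R.getD (i + 1) 0 ↔ i % 4 = 0 ∨ i % 4 = 3) := by
  decide +kernel

lemma g_updown (k i : ℕ) (hi : i + 1 < len k) :
    g k i < g k (i + 1) ↔ i % 4 = 0 ∨ i % 4 = 3 := by
  unfold len at hi
  have h1 := Nat.one_le_two_pow (n := k)
  by_cases h37 : i < 37
  · rw [g_cmp k i (i + 1) (by omega) (by omega)]
    exact R_updown i h37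
  · by_cases hm : i + 1 < 128 * 2 ^ k + 5
    · rw [g_mid k i (by omega) (by omega), g_mid k (i + 1) (by omega) (by omega)]
      have := f_updown (k + 5) (i - 10) (by rw [pow5n]; omega)
      rw [show i + 1 - 10 = i - 10 + 1 by omega]
      rw [show k + 7 = k + 5 + 2 by rfl, this]
      omega
    · rw [g_anti k i (128 * 2 ^ k + 20 - i) (by omega),
        g_anti k (i + 1) (128 * 2 ^ k + 20 - (i + 1)) (by omega), neg_lt_neg_iff]
      have h2 : 128 * 2 ^ k + 20 - i = 128 * 2 ^ k + 20 - (i + 1) + 1 := by omega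
      rw [h2]
      rw [g_cmp k _ _ (by omega) (by omega), R_updown _ (by omega)]
      omega

/-- a square of `g` has half-length divisible by four -/
lemma sq_four (k i l : ℕ) (h2 : 2 ≤ l) (h : i + 2 * l ≤ len k) (hs : Sq (g k) i l) :
    l % 4 = 0 := by
  have e0 := hs 0 (by omega) 1 (by omega)
  rw [show i + 0 = i by rfl, show i + l + 0 = i + l by rfl, g_updown k i (by omega),
    g_updown k (i + l) (by omega)] at e0
  by_cases h3 : l = 2
  · omega
  · have e1 := hs 1 (by omega) 2 (by omega)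
    rw [show i + 2 = i + 1 + 1 by rfl, show i + l + 2 = i + l + 1 + 1 by rfl,
      g_updown k (i + 1) (by omega), g_updown k (i + l + 1) (by omega)] at e1
    omega

lemma nosq_left (k i l : ℕ) (h2 : 2 ≤ l) (h : i + 2 * l ≤ len k) (hi : i < 16) :
    ¬ Sq (g k) i l := by
  intro hs
  have h4 := sq_four k i l h2 h hs
  have h1 := Nat.one_le_two_pow (n := k)
  unfold len at h
  by_cases hl : i + l ≤ 19
  · exact left_nosq k i l hi (by omega) h2 (by omega) hs
  · have e := hs (15 - i) (by omega) (19 - i) (by omega)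
    rw [show i + (15 - i) = 15 by omega, show i + (19 - i) = 19 by omega,
      show i + l + (15 - i) = 15 + l by omega, show i + l + (19 - i) = 19 + l by omega,
      g_cmp k 15 19 (by norm_num) (by norm_num)] at e
    have e2 : g k (15 + l) < g k (19 + l) := by
      rw [g_mid k _ (by omega) (by omega), g_mid k _ (by omega) (by omega)]
      rw [show k + 7 = k + 5 + 2 by rfl, f_valley (k + 5) _ (by omega),
        f_valley (k + 5) _ (by omega)]
      have : ((15 + l - 10 : ℕ) : ℤ) < ((19 + l - 10 : ℕ) : ℤ) := by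
        exact_mod_cast (by omega : 15 + l - 10 < 19 + l - 10)
      linarith
    have e3 := e.2 e2
    revert e3
    decide

/-- mirror image of a square -/
lemma sq_mirror (k i l : ℕ) (h : i + 2 * l ≤ len k) (hs : Sq (g k) i l) :
    Sq (g k) (len k - i - 2 * l) l := by
  unfold len at h ⊢
  intro a ha b hb
  have key : ∀ c < l, g k (128 * 2 ^ k + 21 - i - 2 * l + c) = - g k (i + l + (l - 1 - c)) := by
    intro c hc
    exact g_anti k _ _ (by omega)
  have key2 : ∀ c < l, g k (128 * 2 ^ k + 21 - i - 2 * l + l + c) = - g k (i + (l - 1 - c)) := by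
    intro c hc
    exact g_anti k _ _ (by omega)
  rw [key a ha, key b hb, key2 a ha, key2 b hb, neg_lt_neg_iff, neg_lt_neg_iff]
  exact (hs (l - 1 - b) (by omega) (l - 1 - a) (by omega)).symm

/-- `g k` has no squares. -/
theorem nosq (k i l : ℕ) (h2 : 2 ≤ l) (h : i + 2 * l ≤ len k) : ¬ Sq (g k) i l := by
  intro hs
  by_cases hi : i < 16
  · exact nosq_left k i l h2 h hi hs
  · by_cases hr : i + 2 * l ≤ 128 * 2 ^ k + 5
    · have h64 : 2 ^ (k + 6) = 64 * 2 ^ k := by rw [pow_add]; ring
      refine f_squarefree (k + 6) (i - 10) l h2 (by omega) (by omega) ?_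
      intro a ha b hb
      have := hs a ha b hb
      rw [g_mid k _ (by omega) (by omega), g_mid k _ (by omega) (by omega),
        g_mid k _ (by omega) (by omega), g_mid k _ (by omega) (by omega)] at this
      rw [show i - 10 + a = i + a - 10 by omega, show i - 10 + b = i + b - 10 by omega,
        show i - 10 + l + a = i + l + a - 10 by omega,
        show i - 10 + l + b = i + l + b - 10 by omega]
      exact this
    · refine nosq_left k (len k - i - 2 * l) l h2 ?_ ?_ (sq_mirror k i l h hs)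
      · unfold len at h ⊢; omega
      · unfold len at h ⊢; omega

/-! ### injectivity -/

lemma P_inj : ∀ i < 16, ∀ j < 16, P.getD i 0 = P.getD j 0 → i = j := by decide

lemma h_inj (k i j : ℕ) (hh : h k i = h k j) : i = j := by
  rcases Nat.lt_trichotomy i j with e | e | e
  · exact absurd hh (h_mono k i j e).ne
  · exact e
  · exact absurd hh.symm (h_mono k j i e).ne

lemma pow1 (k : ℕ) : (1 : ℤ) ≤ 2 ^ k := by exact_mod_cast Nat.one_le_two_pow

lemma h_abs (k j : ℕ) (hj : j < 16) :
    (-(384 * 2 ^ k) + 1 ≤ h k j ∧ h k j ≤ -(384 * 2 ^ k) + 16) ∨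
      (384 * 2 ^ k + 1 ≤ h k j ∧ h k j ≤ 384 * 2 ^ k + 16) := by
  have h16 : (j : ℤ) + 1 ≤ 16 := by exact_mod_cast hj
  have h0 : (0 : ℤ) ≤ j := by positivity
  rcases h_range k j with e | e
  · left; rw [e]; constructor <;> linarith
  · right; rw [e]; constructor <;> linarith

lemma mid_abs (k i : ℕ) (h1 : 16 ≤ i) (h2 : i < 128 * 2 ^ k + 5) :
    (g k i < -(448 * 2 ^ k)) ∨ (-(288 * 2 ^ k) < g k i ∧ g k i < 288 * 2 ^ k) ∨
      (448 * 2 ^ k < g k i) := by
  rw [g_mid k i h1 h2]
  have := f_gap (k + 5) (i - 10) (by omega) (by rw [pow5n]; omega)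
  rw [pow5] at this
  rcases this with e | ⟨e1, e2⟩ | e
  · left; linarith
  · right; left; constructor <;> linarith
  · right; right; linarith

lemma left_ne_mid (k i j : ℕ) (hi : i < 16) (h1 : 16 ≤ j) (h2 : j < 128 * 2 ^ k + 5) :
    g k i ≠ g k j := by
  intro e
  have ha := h_abs k (P.getD i 0) (P_lt i)
  rw [← g_left k i hi, e] at ha
  have hb := mid_abs k j h1 h2
  have hp := pow1 k
  rcases ha with ⟨a1, a2⟩ | ⟨a1, a2⟩ <;> rcases hb with b | ⟨b1, b2⟩ | b <;> linarith

lemma left_ne_right (k i j : ℕ) (hi : i < 16) (h1 : 128 * 2 ^ k + 5 ≤ j) :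
    g k i ≠ g k j := by
  intro e
  have ha := h_abs k (P.getD i 0) (P_lt i)
  rw [← g_left k i hi, e, g_right k j h1] at ha
  have hb := h_abs k (P.getD (128 * 2 ^ k + 20 - j) 0) (P_lt _)
  have hp := pow1 k
  rcases ha with ⟨a1, a2⟩ | ⟨a1, a2⟩ <;> rcases hb with ⟨b1, b2⟩ | ⟨b1, b2⟩ <;> linarith

lemma g_inj (k i j : ℕ) (hi : i < len k) (hj : j < len k) (e : g k i = g k j) : i = j := by
  unfold len at hi hj
  have h1 := Nat.one_le_two_pow (n := k)
  have mi : g k i = - g k (128 * 2 ^ k + 20 - i) := g_anti k _ _ (by omega)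
  have mj : g k j = - g k (128 * 2 ^ k + 20 - j) := g_anti k _ _ (by omega)
  have e' : g k (128 * 2 ^ k + 20 - i) = g k (128 * 2 ^ k + 20 - j) := by
    rw [mi, mj] at e; exact neg_injective e
  have ci : i < 16 ∨ (16 ≤ i ∧ i < 128 * 2 ^ k + 5) ∨ 128 * 2 ^ k + 5 ≤ i := by omega
  have cj : j < 16 ∨ (16 ≤ j ∧ j < 128 * 2 ^ k + 5) ∨ 128 * 2 ^ k + 5 ≤ j := by omega
  rcases ci with ci | ⟨ci, ci'⟩ | ci <;> rcases cj with cj | ⟨cj, cj'⟩ | cj
  · rw [g_left k i ci, g_left k j cj] at e
    exact P_inj i ci j cj (h_inj _ _ _ e)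
  · exact absurd e (left_ne_mid k i j ci cj cj')
  · exact absurd e (left_ne_right k i j ci cj)
  · exact absurd e.symm (left_ne_mid k j i cj ci ci')
  · rw [g_mid k i ci ci', g_mid k j cj cj'] at e
    have h64 : 2 ^ (k + 6) = 64 * 2 ^ k := by rw [pow_add]; ring
    have := f_inj (k + 6) (i - 10) (j - 10) (by omega) (by omega) (by omega) (by omega) e
    omega
  · exact absurd e'.symm (left_ne_mid k _ _ (by omega) (by omega) (by omega))
  · exact absurd e.symm (left_ne_right k j i cj ci)
  · exact absurd e' (left_ne_mid k _ _ (by omega) (by omega) (by omega))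
  · rw [g_left k _ (by omega), g_left k _ (by omega)] at e'
    have := P_inj _ (by omega) _ (by omega) (h_inj _ _ _ e')
    omega

end Pool.Agent.TH434.ESF
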