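import Mathlib

/-!
# The middle part of long extremal square-free permutations

`f K` is a linear order on the positions `1, …, 2 ^ K - 1` in which positions `1 mod 4` are low,
positions `3 mod 4` are high, and the even positions are in between, ordered recursively.
It has no squares.
-/

set_option autoImplicit false

namespace Pool.Agent.TH434.ESF

/-- square at `(i, l)` in the sequence `u` -/
def Sq {α : Type*} [LT α] (u : ℕ → α) (i l : ℕ) : Prop :=
  ∀ a < l, ∀ b < l, (u (i + a) < u (i + b) ↔ u (i + l + a) < u (i + l + b))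

/-- the recursive order -/
def f : ℕ → ℕ → ℤ
  | 0, _ => 0
  | 1, _ => 0
  | (K + 2), i => if i % 2 = 0 then f (K + 1) (i / 2) else
      if i % 4 = 1 then (i : ℤ) - 18 * 2 ^ K else (i : ℤ) + 14 * 2 ^ K

lemma f_even (K i : ℕ) (h : i % 2 = 0) : f (K + 2) i = f (K + 1) (i / 2) := by
  rw [f, if_pos h]

lemma f_valley (K i : ℕ) (h : i % 4 = 1) : f (K + 2) i = (i : ℤ) - 18 * 2 ^ K := by
  rw [f, if_neg (by omega), if_pos h]

lemma f_peak (K i : ℕ) (h : i % 4 = 3) : f (K + 2) i = (i : ℤ) + 14 * 2 ^ K := by
  rw [f, if_neg (by omega), if_neg (by omega)]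

lemma f_bound (K : ℕ) : ∀ i : ℕ, i < 2 * 2 ^ K →
    -(9 * 2 ^ K) < f (K + 1) i ∧ f (K + 1) i < 9 * 2 ^ K := by
  induction K with
  | zero => intro i _; simp [f]
  | succ K ih =>
    intro i hi
    have hpos : (0 : ℤ) < 2 ^ K := by positivity
    have hi' : (i : ℤ) < 4 * 2 ^ K := by
      have : i < 4 * 2 ^ K := by rw [pow_succ] at hi; omega
      exact_mod_cast this
    have h4 : i % 4 = 0 ∨ i % 4 = 1 ∨ i % 4 = 2 ∨ i % 4 = 3 := by omega
    rw [pow_succ (2 : ℤ)]
    rcases h4 with h | h | h | h
    · rw [f_even K i (by omega)]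
      have := ih (i / 2) (by rw [pow_succ] at hi; omega)
      constructor <;> linarith [this.1, this.2]
    · rw [f_valley K i h]
      have : (1 : ℤ) ≤ i := by exact_mod_cast (by omega : 1 ≤ i)
      constructor <;> linarith
    · rw [f_even K i (by omega)]
      have := ih (i / 2) (by rw [pow_succ] at hi; omega)
      constructor <;> linarith [this.1, this.2]
    · rw [f_peak K i h]
      have : (1 : ℤ) ≤ i := by exact_mod_cast (by omega : 1 ≤ i)
      constructor <;> linarith

lemma f_updown (K i : ℕ) (hi : i + 1 < 4 * 2 ^ K) :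
    (f (K + 2) i < f (K + 2) (i + 1) ↔ i % 4 = 1 ∨ i % 4 = 2) := by
  have hpos : (0 : ℤ) < 2 ^ K := by positivity
  have hi' : (i : ℤ) + 1 < 4 * 2 ^ K := by exact_mod_cast hi
  have h4 : i % 4 = 0 ∨ i % 4 = 1 ∨ i % 4 = 2 ∨ i % 4 = 3 := by omega
  rcases h4 with h | h | h | h
  · rw [f_even K i (by omega), f_valley K (i + 1) (by omega)]
    have := f_bound K (i / 2) (by omega)
    push_cast
    constructor
    · intro h'; exfalso; linarith [this.1, this.2]
    · intro h'; omega
  · rw [f_valley K i h, f_even K (i + 1) (by omega)]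
    have := f_bound K ((i + 1) / 2) (by omega)
    constructor
    · intro _; left; exact h
    · intro _; linarith [this.1, this.2]
  · rw [f_even K i (by omega), f_peak K (i + 1) (by omega)]
    have := f_bound K (i / 2) (by omega)
    push_cast
    constructor
    · intro _; right; exact h
    · intro _
      have : (0 : ℤ) ≤ i := by positivity
      linarith [this, (f_bound K (i / 2) (by omega)).2]
  · rw [f_peak K i h, f_even K (i + 1) (by omega)]
    have := f_bound K ((i + 1) / 2) (by omega)
    have h0 : (0 : ℤ) ≤ i := by positivity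
    constructor
    · intro h'; exfalso; linarith [this.1, this.2]
    · intro h'; omega

/-- `f K` has no squares on `1, …, 2 ^ K - 1`. -/
lemma f_squarefree (K : ℕ) : ∀ i l : ℕ, 2 ≤ l → 0 < i → i + 2 * l ≤ 2 * 2 ^ K →
    ¬ Sq (f (K + 1)) i l := by
  induction K with
  | zero => intro i l h2 h0 h; omega
  | succ K ih =>
    intro i l h2 h0 h hsq
    have hp : 2 ^ (K + 1) = 2 * 2 ^ K := by rw [pow_succ]; ring
    rw [hp] at h
    have e0 := hsq 0 (by omega) 1 (by omega)
    rw [show i + 0 = i by rfl, show i + l + 0 = i + l by rfl, f_updown K i (by omega),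
      f_updown K (i + l) (by omega)] at e0
    have hl4 : l % 4 = 0 := by
      by_cases h3 : l = 2
      · omega
      · have e1 := hsq 1 (by omega) 2 (by omega)
        rw [show i + 2 = i + 1 + 1 by rfl, show i + l + 2 = i + l + 1 + 1 by rfl,
          f_updown K (i + 1) (by omega), f_updown K (i + l + 1) (by omega)] at e1
        omega
    refine ih ((i + 1) / 2) (l / 2) (by omega) (by omega) (by omega) ?_
    intro a ha b hb
    have key : ∀ c, f (K + 1) c = f (K + 2) (2 * c) := by
      intro c
      rw [f_even K (2 * c) (by omega)]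
      congr 1
      omega
    rw [key, key, key, key]
    have hs := hsq (2 * ((i + 1) / 2) - i + 2 * a) (by omega) (2 * ((i + 1) / 2) - i + 2 * b)
      (by omega)
    have g1 : ∀ c, i + (2 * ((i + 1) / 2) - i + 2 * c) = 2 * ((i + 1) / 2 + c) := by
      intro c; omega
    have g2 : ∀ c, i + l + (2 * ((i + 1) / 2) - i + 2 * c) = 2 * ((i + 1) / 2 + l / 2 + c) := by
      intro c; omega
    rw [g1, g1, g2, g2] at hs
    exact hs

/-- antisymmetry -/
lemma f_anti (K : ℕ) : ∀ i j : ℕ, 0 < i → 0 < j → i + j = 2 * 2 ^ K →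
    f (K + 1) i = - f (K + 1) j := by
  induction K with
  | zero => intro i j _ _ _; simp [f]
  | succ K ih =>
    intro i j hi hj hij
    have hp : 2 ^ (K + 1) = 2 * 2 ^ K := by rw [pow_succ]; ring
    rw [hp] at hij
    have hij' : (i : ℤ) + j = 4 * 2 ^ K := by
      have : i + j = 4 * 2 ^ K := by omega
      exact_mod_cast this
    have h4 : i % 4 = 0 ∨ i % 4 = 1 ∨ i % 4 = 2 ∨ i % 4 = 3 := by omega
    rcases h4 with h | h | h | h
    · rw [f_even K i (by omega), f_even K j (by omega)]
      exact ih _ _ (by omega) (by omega) (by omega)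
    · rw [f_valley K i h, f_peak K j (by omega)]
      linarith
    · rw [f_even K i (by omega), f_even K j (by omega)]
      exact ih _ _ (by omega) (by omega) (by omega)
    · rw [f_peak K i h, f_valley K j (by omega)]
      linarith

/-- injectivity -/
lemma f_inj (K : ℕ) : ∀ i j : ℕ, 0 < i → 0 < j → i < 2 * 2 ^ K → j < 2 * 2 ^ K →
    f (K + 1) i = f (K + 1) j → i = j := by
  induction K with
  | zero => intro i j _ _ _ _ _; omega
  | succ K ih =>
    intro i j hi hj hi2 hj2 hij
    have hp : 2 ^ (K + 1) = 2 * 2 ^ K := by rw [pow_succ]; ring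
    rw [hp] at hi2 hj2
    have hpos : (0 : ℤ) < 2 ^ K := by positivity
    have hi' : (i : ℤ) < 4 * 2 ^ K := by
      have : i < 4 * 2 ^ K := by omega
      exact_mod_cast this
    have hj' : (j : ℤ) < 4 * 2 ^ K := by
      have : j < 4 * 2 ^ K := by omega
      exact_mod_cast this
    have hi0 : (0 : ℤ) ≤ i := by positivity
    have hj0 : (0 : ℤ) ≤ j := by positivity
    have hbi := f_bound K (i / 2) (by omega)
    have hbj := f_bound K (j / 2) (by omega)
    have h4 : i % 2 = 0 ∨ i % 4 = 1 ∨ i % 4 = 3 := by omega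
    have h5 : j % 2 = 0 ∨ j % 4 = 1 ∨ j % 4 = 3 := by omega
    rcases h4 with h | h | h <;> rcases h5 with h' | h' | h'
    · rw [f_even K i h, f_even K j h'] at hij
      have := ih _ _ (by omega) (by omega) (by omega) (by omega) hij
      omega
    · rw [f_even K i h, f_valley K j h'] at hij
      exfalso; linarith [hbi.1, hbi.2]
    · rw [f_even K i h, f_peak K j h'] at hij
      exfalso; linarith [hbi.1, hbi.2]
    · rw [f_valley K i h, f_even K j h'] at hij
      exfalso; linarith [hbj.1, hbj.2]
    · rw [f_valley K i h, f_valley K j h'] at hij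
      have : (i : ℤ) = j := by linarith
      exact_mod_cast this
    · rw [f_valley K i h, f_peak K j h'] at hij
      exfalso; linarith
    · rw [f_peak K i h, f_even K j h'] at hij
      exfalso; linarith [hbj.1, hbj.2]
    · rw [f_peak K i h, f_valley K j h'] at hij
      exfalso; linarith
    · rw [f_peak K i h, f_peak K j h'] at hij
      have : (i : ℤ) = j := by linarith
      exact_mod_cast this

/-- even positions are small, odd positions are large -/
lemma f_gap (K i : ℕ) (h0 : 0 < i) (hi : i < 4 * 2 ^ K) :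
    (f (K + 2) i < -(14 * 2 ^ K)) ∨ (-(9 * 2 ^ K) < f (K + 2) i ∧ f (K + 2) i < 9 * 2 ^ K) ∨
      (14 * 2 ^ K < f (K + 2) i) := by
  have hi' : (i : ℤ) < 4 * 2 ^ K := by exact_mod_cast hi
  have hi0 : (0 : ℤ) < i := by exact_mod_cast h0
  have h4 : i % 2 = 0 ∨ i % 4 = 1 ∨ i % 4 = 3 := by omega
  rcases h4 with h | h | h
  · right; left
    rw [f_even K i h]
    exact f_bound K (i / 2) (by omega)
  · left
    rw [f_valley K i h]; linarith
  · right; right
    rw [f_peak K i h]; linarith

end Pool.Agent.TH434.ESF
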